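import Mathlib

section FileDefs

/-!
Definitions for the almost sure oriented Kesten-McKay law.
Configuration model: `π : Cfg n r` matches the out-stub `(i,a)` to the in-stub `π (i,a)`.
The transposed graph is given by `π⁻¹`.
-/

open Finset

namespace Pool.Agent.OKM

abbrev St (n r : ℕ) := Fin n × Fin r
abbrev Cfg (n r : ℕ) := Equiv.Perm (St n r)

noncomputable section

variable {n r : ℕ}

/-- head vertex of an out-stub -/
def hd (π : Cfg n r) (s : St n r) : Fin n := (π s).1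

/-- the tuple of in-stubs matched to row `i` -/
def tup (π : Cfg n r) (i : Fin n) : Fin r → St n r := fun a => π (i, a)

/-- value on `y` of row `i` if it were matched to the in-stubs `t` -/
def rowv (z : ℂ) (t : Fin r → St n r) (i : Fin n) (y : Fin n → ℂ) : ℂ :=
  ∑ a, y (t a).1 - z * y i

/-- `(A - z) y` -/
def app (π : Cfg n r) (z : ℂ) (y : Fin n → ℂ) : Fin n → ℂ :=
  fun i => ∑ a, y (hd π (i, a)) - z * y i

/-- Euclidean norm -/
def nrm {ι : Type} [Fintype ι] (x : ι → ℂ) : ℝ := √(∑ i, ‖x i‖ ^ 2)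

def onS (S : Finset (Fin n)) (x : Fin n → ℂ) : Fin n → ℂ := fun i => if i ∈ S then x i else 0

def offS (S : Finset (Fin n)) (x : Fin n → ℂ) : Fin n → ℂ := fun i => if i ∈ S then 0 else x i

/-- adjacency matrix with weights `e` on the stubs -/
def sadj (π : Cfg n r) (e : St n r → ℂ) : Matrix (Fin n) (Fin n) ℂ :=
  Matrix.of fun i j => ∑ a, if hd π (i, a) = j then e (i, a) else 0

def adj (π : Cfg n r) : Matrix (Fin n) (Fin n) ℂ := sadj π fun _ => 1

def smat (π : Cfg n r) (e : St n r → ℂ) (z : ℂ) : Matrix (Fin n) (Fin n) ℂ :=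
  sadj π e - z • (1 : Matrix (Fin n) (Fin n) ℂ)

/-- the matrix `A - z` -/
def mat (π : Cfg n r) (z : ℂ) : Matrix (Fin n) (Fin n) ℂ := smat π (fun _ => 1) z

/-- squared singular values -/
def sv2 (M : Matrix (Fin n) (Fin n) ℂ) : Fin n → ℝ :=
  (Matrix.isHermitian_conjTranspose_mul_self M).eigenvalues

/-- no multiple edges -/
def Simple (π : Cfg n r) : Prop := ∀ i a b, hd π (i, a) = hd π (i, b) → a = b

/-- the least singular value of `A - z` is at most `T` -/
def Small (π : Cfg n r) (z : ℂ) (T : ℝ) : Prop := ∃ v, nrm v = 1 ∧ nrm (app π z v) ≤ T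

open Classical in
def cnt (E : Cfg n r → Prop) : ℕ := (univ.filter E).card

/-- probability under the uniform configuration -/
def pr (E : Cfg n r → Prop) : ℝ := (cnt E : ℝ) / ((n * r).factorial : ℝ)

/-- expectation under the uniform configuration -/
def ex (f : Cfg n r → ℝ) : ℝ := (∑ π, f π) / ((n * r).factorial : ℝ)

def Rare (r : ℕ) (E : ∀ n, Cfg n r → Prop) : Prop := Summable fun n => pr (E n)

/-- logarithmic potential of the limit law -/
def U (r : ℕ) (z : ℂ) : ℝ :=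
  (((r : ℝ) - 1) * Real.log ((r : ℝ) - 1) + r * Real.log r
    - ((r : ℝ) - 1) * Real.log ((r : ℝ) ^ 2 - ‖z‖ ^ 2)) / 2

def Om (r : ℕ) (ρ : ℝ) : Set ℂ := {z | ‖z‖ ≤ √(r : ℝ) - ρ ∧ ρ ≤ |z.im|}

/-- the closed disc of centre `a` and radius `s` lies in the open disc minus the real axis -/
def Adm (r : ℕ) (a : ℂ) (s : ℝ) : Prop := 0 < s ∧ ‖a‖ + s < √(r : ℝ) ∧ s < |a.im|

def lg (n : ℕ) : ℝ := Real.log n
def th (n : ℕ) : ℝ := Real.exp (-(lg n ^ 7))
def Xi (n : ℕ) : ℝ := Real.exp (lg n ^ 3)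
def LL (n : ℕ) : ℕ := ⌈lg n ^ 3⌉₊
def uu (n : ℕ) : ℝ := n / lg n ^ 2
def tau (c : ℝ) (n : ℕ) : ℝ := Real.exp (-((n : ℝ) ^ c))

/-- row `i` of `A - z` involves coordinate `j` -/
def Touch (π : Cfg n r) (i j : Fin n) : Prop := i = j ∨ ∃ a, hd π (i, a) = j

/-- two coordinates involved in a common row -/
def Conf (π : Cfg n r) (j j' : Fin n) : Prop := ∃ i, Touch π i j ∧ Touch π i j'

/-- each coordinate is involved in at most one row of `J` -/
def Sparse (π : Cfg n r) (J : Finset (Fin n)) : Prop :=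
  ∀ j, ∀ i ∈ J, ∀ i' ∈ J, Touch π i j → Touch π i' j → i = i'

def outN (π : Cfg n r) (S : Finset (Fin n)) : Finset (Fin n) :=
  (S ×ˢ (univ : Finset (Fin r))).image (hd π)

def X2 (φ : ℝ) (π : Cfg n r) : Prop :=
  ∀ S : Finset (Fin n), 40 ≤ S.card → (S.card : ℝ) ≤ φ * n →
    ((r : ℝ) - 1 / 5) * S.card ≤ (S ∪ outN π S).card

def X3 (π : Cfg n r) : Prop :=
  ∀ S : Finset (Fin n), 2 ≤ S.card → S.card ≤ 40 → (r + 1) * S.card < 2 * (S ∪ outN π S).card

def X4 (φ κ : ℝ) (π : Cfg n r) : Prop :=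
  ∀ S : Finset (Fin n), φ * n / 2 ≤ S.card → (S.card : ℝ) ≤ (1 - φ / 2) * n →
    (S.card : ℝ) + κ * n ≤ (outN π S).card

def Exp1 (φ κ : ℝ) (π : Cfg n r) : Prop := X2 φ π ∧ X3 π ∧ X4 φ κ π

/-- expansion in both directions -/
def Exp (φ κ : ℝ) (π : Cfg n r) : Prop := Exp1 φ κ π ∧ Exp1 φ κ π⁻¹

/-- a subspace of dimension at least `b` of vectors vanishing on `F` on which the rows
outside `J` are small -/
def KS (π : Cfg n r) (z : ℂ) (J F : Finset (Fin n)) (b : ℕ) (t : ℝ) : Prop :=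
  ∃ K : Submodule ℂ (Fin n → ℂ), b ≤ Module.finrank ℂ K ∧ (∀ y ∈ K, ∀ a ∈ F, y a = 0) ∧
    ∀ y ∈ K, nrm (offS J (app π z y)) ≤ t * nrm y

def tK (C : ℝ) (n b : ℕ) : ℝ := Real.exp (-(C * (1 + Real.log ((n : ℝ) / b)) ^ 2))

/-- conclusion of Lemma K (intermediate singular values) -/
def KAll (c C ρ : ℝ) (π : Cfg n r) : Prop :=
  ∀ z ∈ Om r ρ, ∀ (J F : Finset (Fin n)) (b : ℕ), Sparse π J → (n : ℝ) ^ (0.4 : ℝ) ≤ b →
    (n : ℝ) ^ (1 - c) ≤ b + F.card → 40 * J.card ≤ F.card → J.card * lg n ≤ n →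
    ¬ KS π z J F b (tK C n b)

open Classical in
/-- number of coincident non-conflicting ordered pairs of coordinates -/
def coin (π : Cfg n r) (v : Fin n → ℂ) (t : ℝ) : ℕ :=
  (univ.filter fun p : Fin n × Fin n => ¬ Conf π p.1 p.2 ∧ ‖v p.1 - v p.2‖ ≤ t).card

/-- conclusion of Theorem C (few coincidences) -/
def CAll (ρ : ℝ) (π : Cfg n r) : Prop :=
  ∀ z ∈ Om r ρ, ∀ v, nrm v = 1 → nrm (app π z v) ≤ th n →
    (coin π v (th n) : ℝ) ≤ (n : ℝ) ^ (0.95 : ℝ)

open Classical in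
/-- undirected ball -/
def ball (π : Cfg n r) (i : Fin n) : ℕ → Finset (Fin n)
  | 0 => {i}
  | k + 1 => univ.filter fun j => ∃ j' ∈ ball π i k, Touch π j' j ∨ Touch π j j'

/-- a vertex set spanning at least as many edges as it has vertices -/
def Thick (π : Cfg n r) (V : Finset (Fin n)) : Prop :=
  V.Nonempty ∧ V.card ≤ (univ.filter fun s : St n r => s.1 ∈ V ∧ hd π s ∈ V).card

open Classical in
/-- vertices close to a short cycle -/
def badV (π : Cfg n r) (T : ℕ) : Finset (Fin n) :=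
  univ.filter fun i => ∃ V, Thick π V ∧ V.card ≤ T ∧ V ⊆ ball π i T

def Tree (δ : ℝ) (T : ℕ) (π : Cfg n r) : Prop := ((badV π T).card : ℝ) ≤ δ * n

/-- target of row `i` for the choice `c` (diagonal or a stub) -/
def tgt (π : Cfg n r) (c : Fin n → Option (Fin r)) (i : Fin n) : Fin n :=
  (c i).elim i fun a => hd π (i, a)

open Classical in
/-- the permanent of `A + y` -/
def Per (π : Cfg n r) (y : ℝ) : ℝ :=
  ∑ c : Fin n → Option (Fin r),
    if Function.Bijective (tgt π c) then y ^ (univ.filter fun i => c i = none).card else 0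

/-- lower bound for the determinant whenever the least singular value is not tiny -/
def LBall (ρ ε T : ℝ) (π : Cfg n r) : Prop :=
  ∀ z ∈ Om r ρ, ¬ Small π z T → n * (U r z - ε) ≤ Real.log ‖(mat π z).det‖

def mlog (Λ : Multiset ℂ) (a : ℂ) (s : ℝ) : ℝ := (Λ.map fun w => Real.log (max s ‖w - a‖)).sum

/-- the 0-1 matrices with all line sums `r` -/
def regs (n r : ℕ) : Finset (Matrix (Fin n) (Fin n) (Fin 2)) :=
  Finset.univ.filter fun M : Matrix (Fin n) (Fin n) (Fin 2) =>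
    (∀ i, ∑ j, (M i j : ℕ) = r) ∧ (∀ j, ∑ i, (M i j : ℕ) = r)

def toC (M : Matrix (Fin n) (Fin n) (Fin 2)) : Matrix (Fin n) (Fin n) ℂ :=
  Matrix.map M fun x : Fin 2 => ((x : ℕ) : ℂ)

/-- the kernel `1 / (1 + a |y|^2)` -/
def ker1 (a : ℝ) (y : ℂ) : ℝ := 1 / (1 + a * ‖y‖ ^ 2)

open Classical in
/-- number of `r`-tuples of coordinates whose sum is within `t` of `z v_i` -/
def Dn (r : ℕ) (z : ℂ) (v : Fin n → ℂ) (i : Fin n) (t : ℝ) : ℕ :=
  (univ.filter fun f : Fin r → Fin n => ‖∑ a, v (f a) - z * v i‖ ≤ t).card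

open Classical in
/-- every disc of radius `t` contains at most `M` coordinates of `v` -/
def Clus (v : Fin n → ℂ) (t M : ℝ) : Prop :=
  ∀ ζ : ℂ, ((univ.filter fun j => ‖v j - ζ‖ ≤ t).card : ℝ) ≤ M

/-- a family of (leaf, centre) pairs on pairwise non-conflicting coordinates -/
def Stars (π : Cfg n r) (P : Finset (Fin n × Fin n)) (Cn : Finset (Fin n)) : Prop :=
  (∀ p ∈ P, p.2 ∈ Cn) ∧ (∀ p ∈ P, p.1 ∉ Cn) ∧ (∀ p ∈ P, ∀ p' ∈ P, p.1 = p'.1 → p = p') ∧
    ∀ j ∈ P.image Prod.fst ∪ Cn, ∀ j' ∈ P.image Prod.fst ∪ Cn, Conf π j j' → j = j'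

/-- numerical constraints on `q` centres, `g` leaves and the cluster bound `M` -/
def StarPar (n q g : ℕ) (M : ℝ) : Prop :=
  1 ≤ q ∧ q ≤ g ∧ q * (n : ℝ) ^ (0.94 : ℝ) ≤ (g : ℝ) ^ 2 ∧ 320 * (g : ℝ) ≤ uu n ∧ 1 ≤ M ∧
    M * q ≤ g * (n : ℝ) ^ (0.8 : ℝ) ∧ M * q * (n : ℝ) ^ (0.12 : ℝ) ≤ (g : ℝ) ^ 2

open Classical in
/-- number of unpopular rows -/
def unpop (r : ℕ) (z : ℂ) (v : Fin n → ℂ) (t p : ℝ) : Finset (Fin n) :=
  univ.filter fun i => (Dn r z v i t : ℝ) ≤ p * (n : ℝ) ^ r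

/-- Case 1 of Theorem C: many unpopular rows -/
def E1 (π : Cfg n r) (z : ℂ) : Prop :=
  ∃ (v : Fin n → ℂ) (s M : ℝ) (P : Finset (Fin n × Fin n)) (Cn : Finset (Fin n)),
    0 ≤ s ∧ (∀ i, ‖app π z v i‖ ≤ s) ∧ (∀ p ∈ P, ‖v p.1 - v p.2‖ ≤ s) ∧ Stars π P Cn ∧
    StarPar n Cn.card P.card M ∧ Clus v (Xi n * s) M ∧
    uu n ≤ (unpop r z v (Xi n * s) (P.card / Cn.card * (n : ℝ) ^ (-1.1 : ℝ))).card

/-- Case 2 of Theorem C: almost all rows popular -/
def E2 (π : Cfg n r) (z : ℂ) : Prop :=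
  ∃ (v : Fin n → ℂ) (l : ℕ) (M p : ℝ), l ≤ 2 * LL n + 2 ∧ nrm v = 1 ∧
    nrm (app π z v) ≤ 2 * th n ∧ Clus v (Xi n * (2 * th n * Xi n ^ l)) M ∧ 1 ≤ M ∧
    M ≤ p * (n : ℝ) ^ (1.9 : ℝ) ∧ (n : ℝ) ^ (-1.1 : ℝ) ≤ p ∧
    ∑ i, Real.log (Dn r z v i (Xi n * (2 * th n * Xi n ^ l)))
      ≤ ∑ i, Real.log (Dn r z v i (2 * th n * Xi n ^ l)) + r * uu n ∧
    ((unpop r z v (Xi n * (2 * th n * Xi n ^ l)) p).card : ℝ) ≤ uu n

end

end Pool.Agent.OKM

end FileDefs

section FileBasic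

/-!
Basic API for `nrm`, `app`, `Touch`, `Conf`, `U`, `Om`.
Hints: `nrm_eq` transfers everything to `EuclideanSpace`. `nrm_smat_le`: Cauchy-Schwarz on the `r`
terms of a row, then every vertex is the head of exactly `r` stubs (`card_hd_fiber`, sum over
`π` as an equivalence). `app_pair`: reindex the double sum over stubs by `π`.
`small_inv`: if `det = 0` both matrices (transposes) are singular; otherwise solve
`app π⁻¹ z u = conj v`, then `1 = ∑ u i * app π z v i ≤ nrm u * T`, and normalise `u`.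
`U_lip`: `|log a - log b| ≤ |a - b| / min a b`, `min ≥ r^2 - r`.
-/

open Finset

namespace Pool.Agent.OKM

section Nrm
variable {ι : Type} [Fintype ι]

theorem nrm_nonneg (x : ι → ℂ) : 0 ≤ nrm x := Real.sqrt_nonneg _

theorem nrm_sq (x : ι → ℂ) : nrm x ^ 2 = ∑ i, ‖x i‖ ^ 2 :=
  Real.sq_sqrt (Finset.sum_nonneg fun _ _ => sq_nonneg _)

theorem nrm_eq (x : ι → ℂ) : nrm x = ‖(WithLp.toLp 2 x : EuclideanSpace ℂ ι)‖ := by
  rw [EuclideanSpace.norm_eq]; rfl

theorem nrm_zero : nrm (0 : ι → ℂ) = 0 := by simp [nrm]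

theorem nrm_eq_zero {x : ι → ℂ} : nrm x = 0 ↔ x = 0 := by
  rw [nrm_eq, norm_eq_zero]
  constructor
  · intro h
    funext i
    exact congrArg (fun v : EuclideanSpace ℂ ι => v i) h
  · rintro rfl
    rfl

theorem nrm_add_le (x y : ι → ℂ) : nrm (x + y) ≤ nrm x + nrm y := by
  rw [nrm_eq, nrm_eq, nrm_eq]
  exact norm_add_le (WithLp.toLp 2 x : EuclideanSpace ℂ ι) (WithLp.toLp 2 y)

theorem nrm_sub_le (x y : ι → ℂ) : nrm (x - y) ≤ nrm x + nrm y := by
  rw [nrm_eq, nrm_eq, nrm_eq]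
  exact norm_sub_le (WithLp.toLp 2 x : EuclideanSpace ℂ ι) (WithLp.toLp 2 y)

theorem nrm_smul (c : ℂ) (x : ι → ℂ) : nrm (c • x) = ‖c‖ * nrm x := by
  rw [nrm_eq, nrm_eq]
  exact norm_smul c (WithLp.toLp 2 x : EuclideanSpace ℂ ι)

theorem norm_le_nrm (x : ι → ℂ) (i : ι) : ‖x i‖ ≤ nrm x := by
  refine Real.le_sqrt_of_sq_le ?_
  exact Finset.single_le_sum (f := fun i => ‖x i‖ ^ 2) (fun _ _ => sq_nonneg _) (mem_univ i)

theorem nrm_mono {x y : ι → ℂ} (h : ∀ i, ‖x i‖ ≤ ‖y i‖) : nrm x ≤ nrm y :=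
  Real.sqrt_le_sqrt (Finset.sum_le_sum fun i _ => pow_le_pow_left₀ (norm_nonneg _) (h i) 2)

theorem nrm_le_of_sq {x : ι → ℂ} {a : ℝ} (ha : 0 ≤ a) (h : ∑ i, ‖x i‖ ^ 2 ≤ a ^ 2) :
    nrm x ≤ a := Real.sqrt_le_iff.mpr ⟨ha, h⟩

theorem nrm_le_of_forall {x : ι → ℂ} {a : ℝ} (ha : 0 ≤ a) (h : ∀ i, ‖x i‖ ≤ a) :
    nrm x ≤ √(Fintype.card ι : ℝ) * a := by
  refine nrm_le_of_sq (by positivity) ?_
  rw [mul_pow, Real.sq_sqrt (Nat.cast_nonneg _)]
  calc ∑ i, ‖x i‖ ^ 2 ≤ ∑ _i : ι, a ^ 2 :=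
        Finset.sum_le_sum fun i _ => pow_le_pow_left₀ (norm_nonneg _) (h i) 2
    _ = _ := by rw [Finset.sum_const, card_univ, nsmul_eq_mul]

theorem pair_le (u v : ι → ℂ) : ‖∑ i, u i * v i‖ ≤ nrm u * nrm v := by
  refine (norm_sum_le _ _).trans ?_
  simp only [norm_mul]
  exact Real.sum_mul_le_sqrt_mul_sqrt _ _ _

theorem exists_unit {x : ι → ℂ} (hx : x ≠ 0) : ∃ c : ℂ, ‖c‖ = (nrm x)⁻¹ ∧ nrm (c • x) = 1 := by
  have h : nrm x ≠ 0 := fun h => hx (nrm_eq_zero.mp h)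
  have h1 : ‖(((nrm x)⁻¹ : ℝ) : ℂ)‖ = (nrm x)⁻¹ := by
    rw [Complex.norm_real, Real.norm_of_nonneg (inv_nonneg.mpr (nrm_nonneg x))]
  exact ⟨(((nrm x)⁻¹ : ℝ) : ℂ), h1, by rw [nrm_smul, h1, inv_mul_cancel₀ h]⟩

end Nrm

variable {n r : ℕ}

theorem onS_add_offS (S : Finset (Fin n)) (x : Fin n → ℂ) : onS S x + offS S x = x := by
  funext i
  by_cases h : i ∈ S <;> simp [onS, offS, h]

theorem nrm_onS_le (S : Finset (Fin n)) (x : Fin n → ℂ) : nrm (onS S x) ≤ nrm x := by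
  refine nrm_mono fun i => ?_
  by_cases h : i ∈ S <;> simp [onS, h]

theorem nrm_offS_le (S : Finset (Fin n)) (x : Fin n → ℂ) : nrm (offS S x) ≤ nrm x := by
  refine nrm_mono fun i => ?_
  by_cases h : i ∈ S <;> simp [offS, h]

theorem nrm_onS_sq (S : Finset (Fin n)) (x : Fin n → ℂ) :
    nrm (onS S x) ^ 2 = ∑ i ∈ S, ‖x i‖ ^ 2 := by
  rw [nrm_sq, ← Finset.sum_ite_mem_eq S]
  refine Finset.sum_congr rfl fun i _ => ?_
  by_cases h : i ∈ S <;> simp [onS, h]

theorem nrm_offS_sq (S : Finset (Fin n)) (x : Fin n → ℂ) :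
    nrm (offS S x) ^ 2 = ∑ i ∈ Sᶜ, ‖x i‖ ^ 2 := by
  rw [nrm_sq, ← Finset.sum_ite_mem_eq Sᶜ]
  refine Finset.sum_congr rfl fun i _ => ?_
  by_cases h : i ∈ S <;> simp [offS, h]

theorem offS_add (S : Finset (Fin n)) (x y : Fin n → ℂ) :
    offS S (x + y) = offS S x + offS S y := by
  funext i
  by_cases h : i ∈ S <;> simp [offS, h]

theorem offS_sub (S : Finset (Fin n)) (x y : Fin n → ℂ) :
    offS S (x - y) = offS S x - offS S y := by
  funext i
  by_cases h : i ∈ S <;> simp [offS, h]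

theorem offS_smul (S : Finset (Fin n)) (c : ℂ) (x : Fin n → ℂ) :
    offS S (c • x) = c • offS S x := by
  funext i
  by_cases h : i ∈ S <;> simp [offS, h]

theorem offS_empty (x : Fin n → ℂ) : offS ∅ x = x := by
  funext i
  simp [offS]


theorem app_eq_rowv (π : Cfg n r) (z : ℂ) (y : Fin n → ℂ) (i : Fin n) :
    app π z y i = rowv z (tup π i) i y := rfl
theorem app_add (π : Cfg n r) (z : ℂ) (x y : Fin n → ℂ) :
    app π z (x + y) = app π z x + app π z y := by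
  funext i
  simp only [app, Pi.add_apply, Finset.sum_add_distrib]
  ring

theorem app_sub (π : Cfg n r) (z : ℂ) (x y : Fin n → ℂ) :
    app π z (x - y) = app π z x - app π z y := by
  funext i
  simp only [app, Pi.sub_apply, Finset.sum_sub_distrib]
  ring

theorem app_smul (π : Cfg n r) (z c : ℂ) (x : Fin n → ℂ) :
    app π z (c • x) = c • app π z x := by
  funext i
  simp only [app, Pi.smul_apply, smul_eq_mul, ← Finset.mul_sum]
  ring

theorem app_zero (π : Cfg n r) (z : ℂ) : app π z 0 = 0 := by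
  funext i
  simp [app]


/-- `app` as a linear map -/
def appL (π : Cfg n r) (z : ℂ) : (Fin n → ℂ) →ₗ[ℂ] (Fin n → ℂ) where
  toFun := app π z
  map_add' := app_add π z
  map_smul' := app_smul π z

theorem appL_apply (π : Cfg n r) (z : ℂ) (y : Fin n → ℂ) : appL π z y = app π z y := rfl

theorem basic_sum_pi {M : Type} [AddCommMonoid M] (π : Cfg n r) (F : Fin n → Fin n → M) :
    ∑ i, ∑ a, F i (hd π (i, a)) = ∑ j, ∑ b, F (hd π⁻¹ (j, b)) j := by
  have h := Equiv.sum_comp π fun s : St n r => F (hd π⁻¹ s) s.1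
  rw [Fintype.sum_prod_type, Fintype.sum_prod_type] at h
  rw [← h]
  refine Finset.sum_congr rfl fun i _ => Finset.sum_congr rfl fun a _ => ?_
  simp [hd]

theorem card_hd_fiber (π : Cfg n r) (j : Fin n) :
    (univ.filter fun s : St n r => hd π s = j).card = r := by
  have h := basic_sum_pi π (fun _ j' => if j' = j then (1 : ℕ) else 0)
  rw [Finset.card_filter, Fintype.sum_prod_type, h, Finset.sum_comm]
  simp

theorem smat_mulVec (π : Cfg n r) (e : St n r → ℂ) (z : ℂ) (y : Fin n → ℂ) (i : Fin n) :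
    (smat π e z).mulVec y i = ∑ a, e (i, a) * y (hd π (i, a)) - z * y i := by
  have h : (sadj π e).mulVec y i = ∑ a, e (i, a) * y (hd π (i, a)) := by
    simp only [sadj, Matrix.mulVec, dotProduct, Matrix.of_apply, Finset.sum_mul]
    rw [Finset.sum_comm]
    refine Finset.sum_congr rfl fun a _ => ?_
    simp
  rw [smat, Matrix.sub_mulVec, Pi.sub_apply, h, Matrix.smul_mulVec, Matrix.one_mulVec]
  rfl

theorem mat_mulVec (π : Cfg n r) (z : ℂ) (y : Fin n → ℂ) :
    (mat π z).mulVec y = app π z y := by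
  funext i
  rw [mat, smat_mulVec]
  simp [app]

theorem mat_eq (π : Cfg n r) (z : ℂ) : mat π z = adj π - z • (1 : Matrix (Fin n) (Fin n) ℂ) := rfl
theorem mat_inv (π : Cfg n r) (z : ℂ) : mat π⁻¹ z = (mat π z).transpose := by
  ext i j
  have h := basic_sum_pi π (fun i' j' => if i' = j then (if j' = i then (1 : ℂ) else 0) else 0)
  have h1 : ∑ i', ∑ a, (if i' = j then (if hd π (i', a) = i then (1 : ℂ) else 0) else 0) =
      ∑ a, (if hd π (j, a) = i then (1 : ℂ) else 0) := by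
    rw [Finset.sum_comm]
    refine Finset.sum_congr rfl fun a _ => ?_
    rw [Finset.sum_ite_eq' univ j, if_pos (mem_univ j)]
  have h2 : ∑ j', ∑ a, (if hd π⁻¹ (j', a) = j then (if j' = i then (1 : ℂ) else 0) else 0) =
      ∑ a, (if hd π⁻¹ (i, a) = j then (1 : ℂ) else 0) := by
    rw [Finset.sum_comm]
    refine Finset.sum_congr rfl fun a _ => ?_
    rw [Finset.sum_eq_single i]
    · simp
    · intro b _ hb
      simp [hb]
    · intro hi
      exact absurd (mem_univ i) hi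
  rw [h1, h2] at h
  simp only [mat, smat, sadj, Matrix.transpose_apply, Matrix.sub_apply, Matrix.of_apply,
    Matrix.smul_apply, Matrix.one_apply, h, eq_comm (a := j) (b := i)]

theorem nrm_smat_le (π : Cfg n r) {e : St n r → ℂ} (he : ∀ s, ‖e s‖ ≤ 1) (z : ℂ)
    (y : Fin n → ℂ) : nrm ((smat π e z).mulVec y) ≤ (r + ‖z‖) * nrm y := by
  have h1 : (smat π e z).mulVec y = (fun i => ∑ a, e (i, a) * y (hd π (i, a))) - z • y := by
    funext i
    rw [smat_mulVec]
    rfl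
  have h2 : nrm (fun i => ∑ a, e (i, a) * y (hd π (i, a))) ≤ r * nrm y := by
    refine nrm_le_of_sq (mul_nonneg (Nat.cast_nonneg _) (nrm_nonneg _)) ?_
    have h3 : ∀ i, ‖∑ a, e (i, a) * y (hd π (i, a))‖ ^ 2 ≤ r * ∑ a, ‖y (hd π (i, a))‖ ^ 2 := by
      intro i
      have h4 : ‖∑ a, e (i, a) * y (hd π (i, a))‖ ≤ ∑ a, ‖y (hd π (i, a))‖ := by
        refine (norm_sum_le _ _).trans (Finset.sum_le_sum fun a _ => ?_)
        rw [norm_mul]
        exact mul_le_of_le_one_left (norm_nonneg _) (he _)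
      have h5 := sq_sum_le_card_mul_sum_sq (s := (univ : Finset (Fin r)))
        (f := fun a => ‖y (hd π (i, a))‖)
      rw [card_univ, Fintype.card_fin] at h5
      exact (pow_le_pow_left₀ (norm_nonneg _) h4 2).trans h5
    refine (Finset.sum_le_sum fun i _ => h3 i).trans (le_of_eq ?_)
    rw [← Finset.mul_sum, basic_sum_pi π (fun _ j => ‖y j‖ ^ 2), mul_pow, nrm_sq]
    simp only [Finset.sum_const, card_univ, Fintype.card_fin, nsmul_eq_mul, ← Finset.mul_sum]
    ring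
  rw [h1]
  refine (nrm_sub_le _ _).trans ?_
  rw [nrm_smul]
  linarith

theorem nrm_app_le (π : Cfg n r) (z : ℂ) (y : Fin n → ℂ) :
    nrm (app π z y) ≤ (r + ‖z‖) * nrm y := by
  rw [← mat_mulVec]
  exact nrm_smat_le π (fun _ => norm_one.le) z y

theorem app_pair (π : Cfg n r) (z : ℂ) (u v : Fin n → ℂ) :
    ∑ i, u i * app π z v i = ∑ j, app π⁻¹ z u j * v j := by
  have h := basic_sum_pi π (fun i j => u i * v j)
  simp only [app, mul_sub, sub_mul, Finset.sum_sub_distrib, Finset.mul_sum, Finset.sum_mul, h]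
  congr 1
  exact Finset.sum_congr rfl fun i _ => by ring

theorem app_shift (π : Cfg n r) (z w : ℂ) (y : Fin n → ℂ) :
    app π w y = app π z y + (z - w) • y := by
  funext i
  simp only [app, Pi.add_apply, Pi.smul_apply, smul_eq_mul]
  ring

theorem nrm_app_shift (π : Cfg n r) (z w : ℂ) (y : Fin n → ℂ) :
    nrm (app π w y) ≤ nrm (app π z y) + ‖z - w‖ * nrm y := by
  rw [app_shift π z w, ← nrm_smul]
  exact nrm_add_le _ _

theorem nrm_off_app_shift (π : Cfg n r) (J : Finset (Fin n)) (z w : ℂ) (y : Fin n → ℂ) :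
    nrm (offS J (app π w y)) ≤ nrm (offS J (app π z y)) + ‖z - w‖ * nrm y := by
  rw [app_shift π z w, offS_add, ← nrm_smul]
  exact (nrm_add_le _ _).trans (add_le_add le_rfl (nrm_offS_le _ _))

theorem Small.mono {π : Cfg n r} {z : ℂ} {T T' : ℝ} (h : Small π z T) (hT : T ≤ T') :
    Small π z T' := by
  obtain ⟨v, h1, h2⟩ := h
  exact ⟨v, h1, h2.trans hT⟩

theorem small_of_det {π : Cfg n r} {z : ℂ} {T : ℝ} (hT : 0 ≤ T) (h : (mat π z).det = 0) :
    Small π z T := by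
  obtain ⟨v, hv, h0⟩ := Matrix.exists_mulVec_eq_zero_iff.mpr h
  obtain ⟨c, -, hc⟩ := exists_unit hv
  rw [mat_mulVec] at h0
  refine ⟨c • v, hc, ?_⟩
  rw [app_smul, h0, smul_zero, nrm_zero]
  exact hT

theorem Small.inv {π : Cfg n r} {z : ℂ} {T : ℝ} (h : Small π z T) : Small π⁻¹ z T := by
  obtain ⟨v, h1, h2⟩ := h
  have hT : 0 ≤ T := (nrm_nonneg _).trans h2
  by_cases hd0 : (mat π⁻¹ z).det = 0
  · exact small_of_det hT hd0
  have hu : IsUnit (mat π⁻¹ z) := (Matrix.isUnit_iff_isUnit_det _).mpr (Ne.isUnit hd0)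
  obtain ⟨u, hu⟩ := Matrix.mulVec_surjective_iff_isUnit.mpr hu fun j => (starRingEnd ℂ) (v j)
  rw [mat_mulVec] at hu
  have hn : nrm (app π⁻¹ z u) = 1 := by
    rw [hu, ← h1]
    simp [nrm]
  have hu0 : u ≠ 0 := by
    rintro rfl
    rw [app_zero, nrm_zero] at hn
    exact zero_ne_one hn
  have hp : ∑ i, u i * app π z v i = 1 := by
    rw [app_pair, hu]
    have h3 : ∑ i, ‖v i‖ ^ 2 = 1 := by rw [← nrm_sq, h1, one_pow]
    have h4 : ((∑ i, ‖v i‖ ^ 2 : ℝ) : ℂ) = 1 := by rw [h3, Complex.ofReal_one]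
    rw [← h4, Complex.ofReal_sum]
    refine Finset.sum_congr rfl fun i _ => ?_
    rw [Complex.conj_mul']
    simp
  have h5 := pair_le u (app π z v)
  rw [hp, norm_one] at h5
  have h6 : 1 ≤ nrm u * T := h5.trans (mul_le_mul_of_nonneg_left h2 (nrm_nonneg _))
  have h7 : 0 < nrm u := lt_of_le_of_ne (nrm_nonneg _) fun h => hu0 (nrm_eq_zero.mp h.symm)
  obtain ⟨c, hc, hc1⟩ := exists_unit hu0
  refine ⟨c • u, hc1, ?_⟩
  rw [app_smul, nrm_smul, hn, hc, mul_one, inv_le_iff_one_le_mul₀' h7]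
  exact h6


theorem touch_refl (π : Cfg n r) (i : Fin n) : Touch π i i := Or.inl rfl
theorem touch_inv (π : Cfg n r) (i j : Fin n) : Touch π⁻¹ j i ↔ Touch π i j := by
  unfold Touch
  refine or_congr eq_comm ⟨?_, ?_⟩
  · rintro ⟨a, ha⟩
    refine ⟨(π⁻¹ (j, a)).2, ?_⟩
    have h1 : (i, (π⁻¹ (j, a)).2) = π⁻¹ (j, a) := Prod.ext ha.symm rfl
    rw [hd, h1]
    simp
  · rintro ⟨a, ha⟩
    refine ⟨(π (i, a)).2, ?_⟩
    have h1 : (j, (π (i, a)).2) = π (i, a) := Prod.ext ha.symm rfl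
    rw [hd, h1]
    simp

open Classical in
theorem card_touch_row (π : Cfg n r) (i : Fin n) :
    (univ.filter fun j => Touch π i j).card ≤ r + 1 := by
  have h : (univ.filter fun j => Touch π i j) ⊆ insert i (univ.image fun a => hd π (i, a)) := by
    intro j hj
    rcases (mem_filter.mp hj).2 with h | ⟨a, ha⟩
    · exact mem_insert.mpr (Or.inl h.symm)
    · exact mem_insert.mpr (Or.inr (mem_image.mpr ⟨a, mem_univ _, ha⟩))
  refine (card_le_card h).trans ((card_insert_le _ _).trans ?_)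
  have h2 := card_image_le (s := (univ : Finset (Fin r))) (f := fun a => hd π (i, a))
  rw [card_univ, Fintype.card_fin] at h2
  omega

open Classical in
theorem card_touch_col (π : Cfg n r) (j : Fin n) :
    (univ.filter fun i => Touch π i j).card ≤ r + 1 := by
  have h := card_touch_row π⁻¹ j
  simp only [touch_inv] at h
  exact h

theorem conf_refl (π : Cfg n r) (j : Fin n) : Conf π j j := ⟨j, touch_refl π j, touch_refl π j⟩
theorem Conf.symm {π : Cfg n r} {j j' : Fin n} (h : Conf π j j') : Conf π j' j := by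
  obtain ⟨i, h1, h2⟩ := h
  exact ⟨i, h2, h1⟩

open Classical in
theorem card_conf (π : Cfg n r) (j : Fin n) :
    (univ.filter fun j' => Conf π j j').card ≤ (r + 1) ^ 2 := by
  have h : (univ.filter fun j' => Conf π j j') ⊆
      (univ.filter fun i => Touch π i j).biUnion fun i => univ.filter fun j' => Touch π i j' := by
    intro j' hj
    obtain ⟨i, h1, h2⟩ := (mem_filter.mp hj).2
    exact mem_biUnion.mpr ⟨i, mem_filter.mpr ⟨mem_univ _, h1⟩, mem_filter.mpr ⟨mem_univ _, h2⟩⟩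
  refine (card_le_card h).trans
    ((card_biUnion_le_card_mul _ _ (r + 1) fun i _ => card_touch_row π i).trans ?_)
  rw [sq]
  exact Nat.mul_le_mul_right _ (card_touch_col π j)

theorem mem_outN (π : Cfg n r) (S : Finset (Fin n)) (j : Fin n) :
    j ∈ outN π S ↔ ∃ i ∈ S, ∃ a, hd π (i, a) = j := by
  rw [outN, mem_image]
  constructor
  · rintro ⟨⟨i, a⟩, h1, h2⟩
    exact ⟨i, (mem_product.mp h1).1, a, h2⟩
  · rintro ⟨i, hi, a, ha⟩
    exact ⟨(i, a), mem_product.mpr ⟨hi, mem_univ _⟩, ha⟩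

theorem mem_union_outN_inv (π : Cfg n r) (S : Finset (Fin n)) (i : Fin n) :
    i ∈ S ∪ outN π⁻¹ S ↔ ∃ j ∈ S, Touch π i j := by
  rw [mem_union, mem_outN]
  constructor
  · rintro (h | ⟨j, hj, h⟩)
    · exact ⟨i, h, touch_refl π i⟩
    · exact ⟨j, hj, (touch_inv π i j).mp (Or.inr h)⟩
  · rintro ⟨j, hj, h⟩
    rcases (touch_inv π i j).mpr h with h | h
    · exact Or.inl (h ▸ hj)
    · exact Or.inr ⟨j, hj, h⟩

theorem card_outN_le (π : Cfg n r) (S : Finset (Fin n)) : (outN π S).card ≤ r * S.card := by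
  refine card_image_le.trans (le_of_eq ?_)
  rw [card_product, card_univ, Fintype.card_fin, mul_comm]

theorem sparse_empty (π : Cfg n r) : Sparse π ∅ := fun _ _ hi => absurd hi (notMem_empty _)

theorem Exp.inv {φ κ : ℝ} {π : Cfg n r} (h : Exp φ κ π) : Exp φ κ π⁻¹ := ⟨h.2, by
  rw [inv_inv]; exact h.1⟩


theorem card_roots_adj (π : Cfg n r) : Multiset.card (adj π).charpoly.roots = n := by
  rw [IsAlgClosed.card_roots_eq_natDegree, Matrix.charpoly_natDegree_eq_dim, Fintype.card_fin]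

theorem det_mat_eq (π : Cfg n r) (z : ℂ) :
    (mat π z).det = ((adj π).charpoly.roots.map fun w => w - z).prod := by
  have h1 := Matrix.eval_charpoly (adj π) z
  rw [(IsAlgClosed.splits _).eval_eq_prod_roots_of_monic (Matrix.charpoly_monic _)] at h1
  have h2 : mat π z = -(Matrix.scalar (Fin n) z - adj π) := by
    rw [mat_eq, neg_sub, Matrix.scalar_apply, Matrix.smul_one_eq_diagonal]
  have h3 : ((adj π).charpoly.roots.map fun w => w - z) =
      ((adj π).charpoly.roots.map fun w => z - w).map Neg.neg := by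
    rw [Multiset.map_map]
    exact Multiset.map_congr rfl fun w _ => by simp
  rw [h2, Matrix.det_neg, ← h1, h3, Multiset.prod_map_neg, Multiset.card_map, card_roots_adj,
    Fintype.card_fin]

theorem log_det_mat (π : Cfg n r) (z : ℂ) (h : (mat π z).det ≠ 0) :
    (∀ w ∈ (adj π).charpoly.roots, w ≠ z) ∧
    Real.log ‖(mat π z).det‖ = ((adj π).charpoly.roots.map fun w => Real.log ‖z - w‖).sum := by
  have h1 : ∀ w ∈ (adj π).charpoly.roots, w ≠ z := by
    intro w hw hz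
    apply h
    rw [det_mat_eq]
    exact Multiset.prod_eq_zero (Multiset.mem_map.mpr ⟨w, hw, by rw [hz, sub_self]⟩)
  refine ⟨h1, ?_⟩
  have h2 := map_multiset_prod (normHom.toMonoidHom : ℂ →* ℝ)
    ((adj π).charpoly.roots.map fun w => w - z)
  have h3 : ‖(mat π z).det‖ = ((adj π).charpoly.roots.map fun w => ‖z - w‖).prod := by
    rw [det_mat_eq]
    refine h2.trans ?_
    rw [Multiset.map_map]
    exact congrArg Multiset.prod (Multiset.map_congr rfl fun w _ => norm_sub_rev w z)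
  rw [h3, Real.log_multiset_prod, Multiset.map_map]
  · rfl
  · intro x hx
    obtain ⟨w, hw, rfl⟩ := Multiset.mem_map.mp hx
    exact norm_ne_zero_iff.mpr (sub_ne_zero.mpr (h1 w hw).symm)


theorem om_norm_le {ρ : ℝ} (hρ : 0 < ρ) {z : ℂ} (hz : z ∈ Om r ρ) : ‖z‖ ≤ √(r : ℝ) := by
  have h := hz.1
  linarith

theorem om_norm_le' {ρ : ℝ} (hρ : 0 < ρ) {z : ℂ} (hz : z ∈ Om r ρ) : ‖z‖ ≤ r := by
  refine (om_norm_le hρ hz).trans (Real.sqrt_le_iff.mpr ⟨Nat.cast_nonneg _, ?_⟩)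
  exact_mod_cast Nat.le_self_pow two_ne_zero r

theorem om_le_norm {ρ : ℝ} {z : ℂ} (hz : z ∈ Om r ρ) : ρ ≤ ‖z‖ :=
  hz.2.trans (Complex.abs_im_le_norm z)

theorem om_sq_le {ρ : ℝ} (hr : 1 ≤ r) (hρ : 0 < ρ) (hρ1 : ρ ≤ 1) {z : ℂ} (hz : z ∈ Om r ρ) :
    ‖z‖ ^ 2 ≤ r - ρ := by
  have h := hz.1
  have h0 : (1 : ℝ) ≤ √(r : ℝ) := Real.one_le_sqrt.mpr (by exact_mod_cast hr)
  have h1 : √(r : ℝ) ^ 2 = r := Real.sq_sqrt (Nat.cast_nonneg _)
  have h2 := pow_le_pow_left₀ (norm_nonneg z) h 2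
  have h3 := mul_le_mul_of_nonneg_left h0 hρ.le
  have h4 := mul_le_mul_of_nonneg_left hρ1 hρ.le
  have h5 : (√(r : ℝ) - ρ) ^ 2 = √(r : ℝ) ^ 2 - 2 * (ρ * √(r : ℝ)) + ρ * ρ := by ring
  linarith

theorem adm_om {a : ℂ} {s : ℝ} (h : Adm r a s) :
    ∃ ρ : ℝ, 0 < ρ ∧ ρ ≤ 1 ∧ Metric.closedBall a s ⊆ Om r ρ := by
  obtain ⟨h0, h1, h2⟩ := h
  refine ⟨min 1 (min (√(r : ℝ) - ‖a‖ - s) (|a.im| - s)),
    lt_min one_pos (lt_min (by linarith) (by linarith)), min_le_left _ _, fun z hz => ?_⟩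
  have m1 := (min_le_right 1 (min (√(r : ℝ) - ‖a‖ - s) (|a.im| - s))).trans (min_le_left _ _)
  have m2 := (min_le_right 1 (min (√(r : ℝ) - ‖a‖ - s) (|a.im| - s))).trans (min_le_right _ _)
  rw [mem_closedBall_iff_norm] at hz
  have a1 := norm_sub_norm_le z a
  have a2 := Complex.abs_im_le_norm (z - a)
  rw [Complex.sub_im, abs_sub_comm] at a2
  have a3 := abs_sub_abs_le_abs_sub a.im z.im
  exact ⟨by linarith, by linarith⟩

theorem basic_gap {z : ℂ} (hz : ‖z‖ ≤ √(r : ℝ)) :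
    (r : ℝ) * (r - 1) ≤ (r : ℝ) ^ 2 - ‖z‖ ^ 2 := by
  have h1 : √(r : ℝ) ^ 2 = r := Real.sq_sqrt (Nat.cast_nonneg _)
  have h2 := pow_le_pow_left₀ (norm_nonneg z) hz 2
  linarith

theorem basic_U_le (hr : 3 ≤ r) {z w : ℂ} (hz : ‖z‖ ≤ √(r : ℝ)) (hw : ‖w‖ ≤ √(r : ℝ)) :
    U r z - U r w ≤ ‖z - w‖ := by
  have hr' : (3 : ℝ) ≤ r := by exact_mod_cast hr
  have g1 := basic_gap hz
  have g2 := basic_gap hw
  have h3 : (0 : ℝ) < r - 1 := by linarith
  have h4 : (0 : ℝ) < r := by linarith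
  have h1 : 0 < (r : ℝ) * (r - 1) := mul_pos h4 h3
  have p1 : 0 < (r : ℝ) ^ 2 - ‖z‖ ^ 2 := by linarith
  have p2 : 0 < (r : ℝ) ^ 2 - ‖w‖ ^ 2 := by linarith
  have s1 : √(r : ℝ) ≤ r := by
    refine Real.sqrt_le_iff.mpr ⟨h4.le, ?_⟩
    exact_mod_cast Nat.le_self_pow two_ne_zero r
  have d1 : ‖z‖ ^ 2 - ‖w‖ ^ 2 ≤ 2 * r * ‖z - w‖ := by
    have a1 := norm_sub_norm_le z w
    have a2 : ‖z‖ + ‖w‖ ≤ 2 * r := by linarith
    calc ‖z‖ ^ 2 - ‖w‖ ^ 2 = (‖z‖ + ‖w‖) * (‖z‖ - ‖w‖) := by ring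
      _ ≤ (‖z‖ + ‖w‖) * ‖z - w‖ := mul_le_mul_of_nonneg_left a1 (by positivity)
      _ ≤ _ := mul_le_mul_of_nonneg_right a2 (norm_nonneg _)
  have l1 : Real.log ((r : ℝ) ^ 2 - ‖w‖ ^ 2) - Real.log ((r : ℝ) ^ 2 - ‖z‖ ^ 2) ≤
      2 * ‖z - w‖ / (r - 1) := by
    rw [← Real.log_div p2.ne' p1.ne']
    refine (Real.log_le_sub_one_of_pos (div_pos p2 p1)).trans ?_
    rw [div_sub_one p1.ne']
    calc _ ≤ 2 * r * ‖z - w‖ / ((r : ℝ) ^ 2 - ‖z‖ ^ 2) :=
          div_le_div_of_nonneg_right (by linarith) p1.le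
      _ ≤ 2 * r * ‖z - w‖ / ((r : ℝ) * (r - 1)) :=
          div_le_div_of_nonneg_left (by positivity) h1 g1
      _ = _ := by field_simp
  rw [le_div_iff₀ h3] at l1
  unfold U
  linarith

theorem U_lip (hr : 3 ≤ r) {z w : ℂ} (hz : ‖z‖ ≤ √(r : ℝ)) (hw : ‖w‖ ≤ √(r : ℝ)) :
    |U r z - U r w| ≤ ‖z - w‖ := by
  rw [abs_le]
  have h1 := basic_U_le hr hz hw
  have h2 := basic_U_le hr hw hz
  rw [norm_sub_rev] at h2
  exact ⟨by linarith, h1⟩

theorem exp_two_U (hr : 3 ≤ r) {z : ℂ} (hz : ‖z‖ ≤ √(r : ℝ)) :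
    Real.exp (2 * U r z) =
      (r : ℝ) ^ r * ((r : ℝ) - 1) ^ (r - 1) / ((r : ℝ) ^ 2 - ‖z‖ ^ 2) ^ (r - 1) := by
  have hr' : (3 : ℝ) ≤ r := by exact_mod_cast hr
  have h0 := basic_gap hz
  have h1 : 0 < (r : ℝ) * (r - 1) := mul_pos (by linarith) (by linarith)
  have h2 : 0 < (r : ℝ) ^ 2 - ‖z‖ ^ 2 := by linarith
  have h3 : (0 : ℝ) < r - 1 := by linarith
  have h4 : (0 : ℝ) < r := by linarith
  have hc : ((r - 1 : ℕ) : ℝ) = (r : ℝ) - 1 := by
    rw [Nat.cast_sub (by omega), Nat.cast_one]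
  have e : 2 * U r z = (r : ℕ) * Real.log r + ((r - 1 : ℕ) : ℝ) * Real.log ((r : ℝ) - 1) -
      ((r - 1 : ℕ) : ℝ) * Real.log ((r : ℝ) ^ 2 - ‖z‖ ^ 2) := by
    rw [hc, U]; ring
  rw [e, Real.exp_sub, Real.exp_add, Real.exp_nat_mul, Real.exp_nat_mul, Real.exp_nat_mul,
    Real.exp_log h2, Real.exp_log h3, Real.exp_log h4]

theorem U_nonneg (hr : 3 ≤ r) {z : ℂ} (hz : ‖z‖ ≤ √(r : ℝ)) : 0 ≤ U r z := by
  have hr' : (3 : ℝ) ≤ r := by exact_mod_cast hr
  have h0 := basic_gap hz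
  have h1 : 0 < (r : ℝ) * (r - 1) := mul_pos (by linarith) (by linarith)
  have h2 : 0 < (r : ℝ) ^ 2 - ‖z‖ ^ 2 := by linarith
  have h3 : (0 : ℝ) < r - 1 := by linarith
  have h4 : (0 : ℝ) < r := by linarith
  have a1 : Real.log ((r : ℝ) ^ 2 - ‖z‖ ^ 2) ≤ 2 * Real.log r := by
    have h := Real.log_le_log h2 (sub_le_self ((r : ℝ) ^ 2) (sq_nonneg ‖z‖))
    rw [Real.log_pow] at h
    exact_mod_cast h
  have a2 : Real.log r - Real.log ((r : ℝ) - 1) ≤ ((r : ℝ) - 1)⁻¹ := by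
    rw [← Real.log_div h4.ne' h3.ne']
    refine (Real.log_le_sub_one_of_pos (div_pos h4 h3)).trans (le_of_eq ?_)
    field_simp
    ring
  have a3 := Real.one_sub_inv_le_log_of_pos h3
  have a4 := mul_le_mul_of_nonneg_left a1 h3.le
  have a5 := mul_le_mul_of_nonneg_left a2 (show (0 : ℝ) ≤ r - 2 by linarith)
  have a6 : ((r : ℝ) - 2) * ((r : ℝ) - 1)⁻¹ = 1 - ((r : ℝ) - 1)⁻¹ := by
    field_simp
    ring
  unfold U
  refine div_nonneg ?_ zero_le_two
  linarith


end Pool.Agent.OKM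

end FileBasic

section FileProb

/-!
Counting API: `cnt`, `pr`, `ex`, `Rare`, probabilities of prescribed images, elementary
binomial bounds, asymptotic helpers, nets.
-/

open Finset Filter

namespace Pool.Agent.OKM

variable {n r : ℕ}

theorem card_cfg : Fintype.card (Cfg n r) = (n * r).factorial := by
  rw [Fintype.card_perm, Fintype.card_prod, Fintype.card_fin, Fintype.card_fin]

theorem prob_fac_pos (m : ℕ) : (0 : ℝ) < (m.factorial : ℝ) := by
  exact_mod_cast m.factorial_pos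

theorem pr_nonneg (E : Cfg n r → Prop) : 0 ≤ pr E :=
  div_nonneg (Nat.cast_nonneg _) (Nat.cast_nonneg _)

theorem pr_le_one (E : Cfg n r → Prop) : pr E ≤ 1 := by
  rw [pr, div_le_one (prob_fac_pos _), Nat.cast_le, ← card_cfg]
  exact card_le_univ _

theorem cnt_mono {E F : Cfg n r → Prop} (h : ∀ π, E π → F π) : cnt E ≤ cnt F := by
  classical
  refine card_le_card fun π hπ => ?_
  simp only [mem_filter, mem_univ, true_and] at hπ ⊢
  exact h π hπ

theorem pr_mono {E F : Cfg n r → Prop} (h : ∀ π, E π → F π) : pr E ≤ pr F :=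
  div_le_div_of_nonneg_right (by exact_mod_cast cnt_mono h) (Nat.cast_nonneg _)

theorem prob_cnt_exists {ι : Type} (s : Finset ι) (E : ι → Cfg n r → Prop) :
    cnt (fun π => ∃ x ∈ s, E x π) ≤ ∑ x ∈ s, cnt (E x) := by
  classical
  unfold cnt
  refine le_trans (card_le_card fun π hπ => ?_) (card_biUnion_le (s := s)
    (t := fun x => @filter _ (E x) (fun a => Classical.propDecidable _) univ))
  simp only [mem_filter, mem_univ, true_and, mem_biUnion] at hπ ⊢
  exact hπ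

theorem pr_or_le (E F : Cfg n r → Prop) : pr (fun π => E π ∨ F π) ≤ pr E + pr F := by
  classical
  rw [pr, pr, pr, ← add_div]
  refine div_le_div_of_nonneg_right ?_ (Nat.cast_nonneg _)
  rw [← Nat.cast_add, Nat.cast_le]
  unfold cnt
  refine le_trans (card_le_card fun π hπ => ?_) (card_union_le _ _)
  simp only [mem_filter, mem_univ, true_and, mem_union] at hπ ⊢
  exact hπ

theorem pr_not (E : Cfg n r → Prop) : pr (fun π => ¬ E π) = 1 - pr E := by
  classical
  have h : cnt E + cnt (fun π => ¬ E π) = (n * r).factorial := by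
    rw [← card_cfg, ← card_univ, ← card_filter_add_card_filter_not (s := univ) E]
    unfold cnt
    congr 2
    ext π
    simp
  rw [pr, pr, eq_sub_iff_add_eq, ← add_div, div_eq_one_iff_eq (prob_fac_pos _).ne', add_comm]
  exact_mod_cast h

theorem pr_exists_le {ι : Type} (s : Finset ι) (E : ι → Cfg n r → Prop) :
    pr (fun π => ∃ x ∈ s, E x π) ≤ ∑ x ∈ s, pr (E x) := by
  simp only [pr]
  rw [← sum_div]
  refine div_le_div_of_nonneg_right ?_ (Nat.cast_nonneg _)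
  exact_mod_cast prob_cnt_exists s E

theorem pr_exists_le_card {ι : Type} (s : Finset ι) (E : ι → Cfg n r → Prop) {b : ℝ}
    (h : ∀ x ∈ s, pr (E x) ≤ b) : pr (fun π => ∃ x ∈ s, E x π) ≤ s.card * b := by
  refine (pr_exists_le s E).trans ((sum_le_sum h).trans ?_)
  rw [sum_const, nsmul_eq_mul]

theorem prob_cnt_equiv (E : Cfg n r → Prop) (e : Cfg n r ≃ Cfg n r) :
    cnt (fun π => E (e π)) = cnt E := by
  classical
  unfold cnt
  refine card_equiv e fun π => ?_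
  simp only [mem_filter, mem_univ, true_and]

theorem pr_inv (E : Cfg n r → Prop) : pr (fun π => E π⁻¹) = pr E := by
  rw [pr, pr, ← prob_cnt_equiv E (Equiv.inv _)]; rfl

theorem pr_mul_right (E : Cfg n r → Prop) (σ : Cfg n r) :
    pr (fun π => E (π * σ)) = pr E := by
  rw [pr, pr, ← prob_cnt_equiv E (Equiv.mulRight σ)]; rfl

theorem prob_cnt_zero {E : Cfg n r → Prop} (h : ∀ π, ¬ E π) : cnt E = 0 := by
  classical
  unfold cnt
  rw [card_eq_zero, filter_eq_empty_iff]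
  exact fun π _ => h π

theorem pr_eq_zero {E : Cfg n r → Prop} (h : ∀ π, ¬ E π) : pr E = 0 := by
  rw [pr, prob_cnt_zero h, Nat.cast_zero, zero_div]

open Classical in
theorem ex_ite (E : Cfg n r → Prop) (c : ℝ) :
    ex (fun π => if E π then c else 0) = c * pr E := by
  rw [ex, pr, cnt, ← sum_filter, sum_const, nsmul_eq_mul]; ring

theorem ex_mono {f g : Cfg n r → ℝ} (h : ∀ π, f π ≤ g π) : ex f ≤ ex g :=
  div_le_div_of_nonneg_right (sum_le_sum fun π _ => h π) (Nat.cast_nonneg _)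

theorem ex_add (f g : Cfg n r → ℝ) : ex (fun π => f π + g π) = ex f + ex g := by
  rw [ex, ex, ex, sum_add_distrib, add_div]

theorem ex_mul (c : ℝ) (f : Cfg n r → ℝ) : ex (fun π => c * f π) = c * ex f := by
  rw [ex, ex, ← mul_sum, mul_div_assoc]

theorem ex_sum {ι : Type} (s : Finset ι) (f : ι → Cfg n r → ℝ) :
    ex (fun π => ∑ x ∈ s, f x π) = ∑ x ∈ s, ex (f x) := by
  simp only [ex]
  rw [sum_comm, sum_div]

theorem markov {f : Cfg n r → ℝ} (hf : ∀ π, 0 ≤ f π) {a : ℝ} (ha : 0 < a) :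
    pr (fun π => a ≤ f π) ≤ ex f / a := by
  rw [le_div_iff₀ ha, mul_comm, ← ex_ite]
  refine ex_mono fun π => ?_
  split_ifs with h
  · exact h
  · exact hf π

theorem ev_le_lg (C : ℝ) : ∀ᶠ n : ℕ in atTop, C ≤ lg n :=
  (Real.tendsto_log_atTop.comp tendsto_natCast_atTop_atTop).eventually_ge_atTop C

theorem ev_poly (C : ℝ) (k : ℕ) {a b : ℝ} (hab : a < b) :
    ∀ᶠ n : ℕ in atTop, C * lg n ^ k * (n : ℝ) ^ a ≤ (n : ℝ) ^ b := by
  have h1 := (isLittleO_log_rpow_rpow_atTop (k : ℝ) (sub_pos.2 hab)).const_mul_left C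
  have h2 := tendsto_natCast_atTop_atTop.eventually h1.eventuallyLE
  filter_upwards [h2, eventually_ge_atTop 1] with n hn h1n
  have hpos : (0 : ℝ) < n := by exact_mod_cast h1n
  rw [Real.rpow_natCast, Real.norm_eq_abs, Real.norm_eq_abs,
    abs_of_pos (Real.rpow_pos_of_pos hpos _)] at hn
  have h3 : (n : ℝ) ^ b = (n : ℝ) ^ (b - a) * (n : ℝ) ^ a := by
    rw [← Real.rpow_add hpos, sub_add_cancel]
  rw [h3]
  exact mul_le_mul_of_nonneg_right ((le_abs_self _).trans hn) (Real.rpow_pos_of_pos hpos _).le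

theorem ev_lg_pow (C : ℝ) {j k : ℕ} (hjk : j < k) :
    ∀ᶠ n : ℕ in atTop, C * lg n ^ j ≤ lg n ^ k := by
  filter_upwards [ev_le_lg C, ev_le_lg 1] with n h1 h2
  calc C * lg n ^ j ≤ lg n * lg n ^ j :=
        mul_le_mul_of_nonneg_right h1 (pow_nonneg (zero_le_one.trans h2) _)
    _ = lg n ^ (j + 1) := by ring
    _ ≤ lg n ^ k := pow_le_pow_right₀ h2 hjk

theorem rpow_eq_exp_lg {n : ℕ} (hn : 1 ≤ n) (a : ℝ) : (n : ℝ) ^ a = Real.exp (a * lg n) := by
  have hpos : (0 : ℝ) < n := by exact_mod_cast hn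
  rw [Real.rpow_def_of_pos hpos, lg, mul_comm]

theorem rare_of_le {E : ∀ n, Cfg n r → Prop} {f : ℕ → ℝ} (hf : Summable f)
    (h : ∀ᶠ n in atTop, pr (E n) ≤ f n) : Rare r E := by
  refine Summable.of_norm_bounded_eventually_nat hf ?_
  filter_upwards [h] with n hn
  rwa [Real.norm_eq_abs, abs_of_nonneg (pr_nonneg _)]

theorem Rare.mono {E F : ∀ n, Cfg n r → Prop} (hF : Rare r F)
    (h : ∀ᶠ n in atTop, ∀ π, E n π → F n π) : Rare r E :=
  rare_of_le hF (h.mono fun _ hn => pr_mono hn)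

theorem Rare.or {E F : ∀ n, Cfg n r → Prop} (hE : Rare r E) (hF : Rare r F) :
    Rare r fun n π => E n π ∨ F n π :=
  rare_of_le (Summable.add hE hF) (Eventually.of_forall fun _ => pr_or_le _ _)

theorem Rare.inv {E : ∀ n, Cfg n r → Prop} (hE : Rare r E) : Rare r fun n π => E n π⁻¹ :=
  rare_of_le hE (Eventually.of_forall fun _ => (pr_inv _).le)

theorem rare_of_pow {E : ∀ n, Cfg n r → Prop} {a : ℝ} (ha : 1 < a) (C : ℝ)
    (h : ∀ᶠ n in atTop, pr (E n) ≤ C * (n : ℝ) ^ (-a)) : Rare r E :=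
  rare_of_le ((Real.summable_nat_rpow.2 (by linarith)).mul_left C) h

theorem rare_of_exp {E : ∀ n, Cfg n r → Prop} {δ : ℝ} (hδ : 0 < δ)
    (h : ∀ᶠ n in atTop, pr (E n) ≤ Real.exp (-((n : ℝ) ^ δ))) : Rare r E := by
  refine rare_of_pow (a := 2) (by norm_num) 1 ?_
  filter_upwards [h, ev_poly 2 1 hδ, eventually_ge_atTop 1] with n h1 h2 h3
  rw [Real.rpow_zero, pow_one, mul_one] at h2
  rw [one_mul, rpow_eq_exp_lg h3]
  exact h1.trans (Real.exp_le_exp.2 (by linarith))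

theorem prob_card_St : Fintype.card (St n r) = n * r := by
  rw [Fintype.card_prod, Fintype.card_fin, Fintype.card_fin]

theorem prob_card_le (A : Finset (St n r)) : A.card ≤ n * r :=
  prob_card_St (n := n) (r := r) ▸ card_le_univ A

theorem cnt_fix (A : Finset (St n r)) (g : St n r → St n r) :
    cnt (fun π : Cfg n r => ∀ s ∈ A, π s = g s) ≤ (n * r - A.card).factorial := by
  classical
  by_cases hex : ∃ π₀ : Cfg n r, ∀ s ∈ A, π₀ s = g s
  · obtain ⟨π₀, h0⟩ := hex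
    have h1 : cnt (fun π : Cfg n r => ∀ s ∈ A, π s = g s) =
        cnt fun σ : Cfg n r => ∀ s, ¬ (s ∉ A) → σ s = s := by
      rw [← prob_cnt_equiv _ (Equiv.mulLeft π₀)]
      congr 1
      funext σ
      simp only [Equiv.coe_mulLeft, Equiv.Perm.mul_apply, not_not]
      refine propext (forall_congr' fun s => forall_congr' fun hs => ?_)
      rw [← h0 s hs, π₀.apply_eq_iff_eq]
    have h2 := Fintype.card_congr (Equiv.Perm.subtypeEquivSubtypePerm fun s : St n r => s ∉ A)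
    rw [Fintype.card_perm, Fintype.card_subtype_compl, prob_card_St, Fintype.card_coe,
      Fintype.card_subtype] at h2
    rw [h1, h2]
    unfold cnt
    refine le_of_eq (congrArg card ?_)
    ext σ
    simp only [mem_filter]
  · rw [prob_cnt_zero fun π h => hex ⟨π, h⟩]
    exact Nat.zero_le _

theorem cnt_mapTo (A : Finset (St n r)) (B : St n r → Finset (St n r)) :
    cnt (fun π : Cfg n r => ∀ s ∈ A, π s ∈ B s)
      ≤ (∏ s ∈ A, (B s).card) * (n * r - A.card).factorial := by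
  classical
  have h1 : cnt (fun π : Cfg n r => ∀ s ∈ A, π s ∈ B s) ≤ cnt fun π : Cfg n r =>
      ∃ g ∈ A.pi B, ∀ s ∈ A, π s = if h : s ∈ A then g s h else s := by
    refine cnt_mono fun π hπ => ⟨fun s _ => π s, mem_pi.2 hπ, fun s hs => ?_⟩
    rw [dif_pos hs]
  refine h1.trans ((prob_cnt_exists _ _).trans ?_)
  rw [← card_pi, ← smul_eq_mul]
  exact sum_le_card_nsmul _ _ _ fun g _ => cnt_fix A _

theorem cnt_mapInto (A B : Finset (St n r)) :
    cnt (fun π : Cfg n r => ∀ s ∈ A, π s ∈ B)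
      ≤ B.card.descFactorial A.card * (n * r - A.card).factorial := by
  classical
  have h1 : cnt (fun π : Cfg n r => ∀ s ∈ A, π s ∈ B) ≤ cnt fun π : Cfg n r =>
      ∃ g ∈ (univ : Finset (A ↪ B)), ∀ s ∈ A, π s = if h : s ∈ A then (g ⟨s, h⟩).1 else s := by
    refine cnt_mono fun π hπ => ⟨⟨fun s => ⟨π s.1, hπ s.1 s.2⟩, fun s t hst => ?_⟩, mem_univ _,
      fun s hs => ?_⟩
    · exact Subtype.ext (π.injective (congrArg Subtype.val hst))
    · rw [dif_pos hs]; rfl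
  refine h1.trans ((prob_cnt_exists _ _).trans ?_)
  have h2 : (univ : Finset (A ↪ B)).card = B.card.descFactorial A.card := by
    rw [card_univ, Fintype.card_embedding_eq, Fintype.card_coe, Fintype.card_coe]
  rw [← h2, ← smul_eq_mul]
  exact sum_le_card_nsmul _ _ _ fun g _ => cnt_fix A _

theorem prob_pr_le {E : Cfg n r → Prop} {a m : ℕ} (ha : a ≤ n * r)
    (h : cnt E ≤ m * (n * r - a).factorial) :
    pr E ≤ (m : ℝ) / ((n * r).descFactorial a : ℝ) := by
  have h1 : (0 : ℝ) < ((n * r).descFactorial a : ℝ) := by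
    exact_mod_cast Nat.descFactorial_pos.2 ha
  rw [pr, div_le_div_iff₀ (prob_fac_pos _) h1, ← Nat.factorial_mul_descFactorial ha]
  have h2 := Nat.mul_le_mul_right ((n * r).descFactorial a) h
  rw [mul_assoc] at h2
  exact_mod_cast h2

theorem pr_mapTo (A : Finset (St n r)) (B : St n r → Finset (St n r)) (hA : 2 * A.card ≤ n * r) :
    pr (fun π : Cfg n r => ∀ s ∈ A, π s ∈ B s) ≤
      ∏ s ∈ A, (2 * ((B s).card : ℝ) / (n * r)) := by
  rcases A.eq_empty_or_nonempty with rfl | hne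
  · rw [prod_empty]; exact pr_le_one _
  have hc := hne.card_pos
  refine (prob_pr_le (prob_card_le A) (cnt_mapTo A B)).trans ?_
  have hN : (0 : ℝ) < (n : ℝ) * r := by exact_mod_cast (by omega : 0 < n * r)
  have h1 : ∀ s ∈ A, 2 * ((B s).card : ℝ) / (n * r) = (B s).card / ((n : ℝ) * r / 2) := by
    intro s _
    field_simp
  rw [prod_congr rfl h1, prod_div_distrib, prod_const, Nat.cast_prod]
  refine div_le_div_of_nonneg_left (prod_nonneg fun s _ => Nat.cast_nonneg _) (by positivity) ?_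
  have h2 : (n : ℝ) * r / 2 ≤ ((n * r + 1 - A.card : ℕ) : ℝ) := by
    have : n * r ≤ (n * r + 1 - A.card) * 2 := by omega
    rw [div_le_iff₀ two_pos]
    exact_mod_cast this
  refine (pow_le_pow_left₀ (by positivity) h2 _).trans ?_
  exact_mod_cast Nat.pow_sub_le_descFactorial (n * r) A.card

theorem pr_mapInto (A B : Finset (St n r)) :
    pr (fun π : Cfg n r => ∀ s ∈ A, π s ∈ B)
      ≤ (B.card.choose A.card : ℝ) / ((n * r).choose A.card : ℝ) := by
  refine (prob_pr_le (prob_card_le A) (cnt_mapInto A B)).trans (le_of_eq ?_)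
  rw [Nat.descFactorial_eq_factorial_mul_choose, Nat.descFactorial_eq_factorial_mul_choose,
    Nat.cast_mul, Nat.cast_mul, mul_div_mul_left _ _ (prob_fac_pos _).ne']

theorem card_subsets_le {α : Type} [Fintype α] [DecidableEq α] (k : ℕ) {lam : ℝ} (h0 : 0 < lam)
    (h1 : lam ≤ 1) :
    (((univ : Finset (Finset α)).filter fun S => S.card ≤ k).card : ℝ)
      ≤ (1 / lam) ^ k * Real.exp (lam * Fintype.card α) := by
  have h2 : (((univ : Finset (Finset α)).filter fun S => S.card ≤ k).card : ℝ) * lam ^ k ≤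
      ∑ S : Finset α, lam ^ S.card := by
    rw [← nsmul_eq_mul]
    refine (card_nsmul_le_sum _ (fun S : Finset α => lam ^ S.card) _ fun S hS => ?_).trans
      (sum_le_sum_of_subset_of_nonneg (filter_subset _ _) fun S _ _ => (pow_pos h0 _).le)
    exact pow_le_pow_of_le_one h0.le h1 (mem_filter.1 hS).2
  have h3 : ∑ S : Finset α, lam ^ S.card = (1 + lam) ^ Fintype.card α := by
    have := prod_one_add (f := fun _ : α => lam) (univ : Finset α)
    simp only [prod_const, powerset_univ, card_univ] at this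
    exact this.symm
  have h4 : (1 + lam) ^ Fintype.card α ≤ Real.exp (lam * Fintype.card α) := by
    rw [mul_comm, Real.exp_nat_mul]
    exact pow_le_pow_left₀ (by linarith) (by linarith [Real.add_one_le_exp lam]) _
  rw [one_div, inv_pow, mul_comm, ← div_eq_mul_inv, le_div_iff₀ (pow_pos h0 _)]
  exact h2.trans (h3.le.trans h4)

theorem pow_le_factorial (k : ℕ) : ((k : ℝ) / Real.exp 1) ^ k ≤ (k.factorial : ℝ) := by
  have h := Real.pow_div_factorial_le_exp (k : ℝ) (Nat.cast_nonneg k) k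
  rw [div_le_iff₀ (prob_fac_pos k)] at h
  rw [div_pow, Real.exp_one_pow, div_le_iff₀ (Real.exp_pos _), mul_comm]
  exact h

theorem choose_le_exp (N k : ℕ) : (N.choose k : ℝ) ≤ (Real.exp 1 * N / k) ^ k := by
  rcases Nat.eq_zero_or_pos k with rfl | hk
  · simp
  have hk' : (0 : ℝ) < k := by exact_mod_cast hk
  refine (Nat.choose_le_pow_div k N).trans ?_
  have h1 : Real.exp 1 * N / k = N / ((k : ℝ) / Real.exp 1) := by
    field_simp
  rw [h1, div_pow]
  exact div_le_div_of_nonneg_left (by positivity) (by positivity) (pow_le_factorial k)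

theorem factorial_le_pow (k : ℕ) (hk : 1 ≤ k) :
    (k.factorial : ℝ) ≤ Real.exp 1 * k * ((k : ℝ) / Real.exp 1) ^ k := by
  induction k, hk using Nat.le_induction with
  | base =>
    have := Real.exp_pos 1
    simp only [Nat.factorial_one, Nat.cast_one, pow_one]
    refine le_of_eq ?_
    field_simp
  | succ k hk ih =>
    have hk' : (0 : ℝ) < k := by exact_mod_cast hk
    have he := Real.exp_pos 1
    have h1 : (k : ℝ) / (k + 1) ≤ Real.exp (-(1 / ((k : ℝ) + 1))) := by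
      have := Real.add_one_le_exp (-(1 / ((k : ℝ) + 1)))
      refine le_trans (le_of_eq ?_) this
      field_simp
      ring
    have h2 : ((k : ℝ) / (k + 1)) ^ (k + 1) ≤ 1 / Real.exp 1 := by
      refine (pow_le_pow_left₀ (by positivity) h1 _).trans (le_of_eq ?_)
      rw [← Real.exp_nat_mul, one_div (Real.exp 1), ← Real.exp_neg]
      congr 1
      push_cast
      field_simp
    rw [div_pow, div_le_div_iff₀ (by positivity) he, one_mul] at h2
    rw [Nat.factorial_succ, Nat.cast_mul]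
    push_cast
    refine (mul_le_mul_of_nonneg_left ih (by positivity)).trans ?_
    have h3 : ((k : ℝ) + 1) * (Real.exp 1 * k * ((k : ℝ) / Real.exp 1) ^ k) =
        Real.exp 1 * (k + 1) * ((k : ℝ) ^ (k + 1) * Real.exp 1 / Real.exp 1 ^ (k + 1)) := by
      rw [div_pow]
      field_simp
      ring
    rw [h3, div_pow]
    exact mul_le_mul_of_nonneg_left (div_le_div_of_nonneg_right h2 (by positivity))
      (by positivity)

theorem prob_floor_mem {x R h : ℝ} (hh : 0 < h) (hx : |x| ≤ R) :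
    ⌊2 * x / h⌋ ∈ Icc (-⌈2 * R / h⌉) ⌈2 * R / h⌉ := by
  obtain ⟨h1, h2⟩ := abs_le.1 hx
  have h3 := Int.le_ceil (2 * R / h)
  have h4 : 2 * x / h ≤ 2 * R / h := div_le_div_of_nonneg_right (by linarith) hh.le
  have h5 : -(2 * R / h) ≤ 2 * x / h := by
    rw [← neg_div]; exact div_le_div_of_nonneg_right (by linarith) hh.le
  rw [mem_Icc]
  constructor
  · rw [Int.le_floor]; push_cast; linarith
  · exact (Int.floor_le_floor h4).trans (Int.floor_le_ceil _)

theorem prob_floor_close {x y h : ℝ} (hh : 0 < h) (e : ⌊2 * x / h⌋ = ⌊2 * y / h⌋) :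
    |x - y| ≤ h / 2 := by
  have h1 := (Int.abs_sub_lt_one_of_floor_eq_floor e).le
  have h2 : x - y = (2 * x / h - 2 * y / h) * (h / 2) := by field_simp
  rw [h2, abs_mul, abs_of_pos (half_pos hh)]
  exact mul_le_of_le_one_left (half_pos hh).le h1

theorem net (S : Set ℂ) {R h : ℝ} (hR : 0 ≤ R) (hh : 0 < h) (hS : ∀ z ∈ S, ‖z‖ ≤ R) :
    ∃ Z : Finset ℂ, (∀ z ∈ Z, z ∈ S) ∧ (Z.card : ℝ) ≤ (4 * R / h + 3) ^ 2 ∧
      ∀ z ∈ S, ∃ w ∈ Z, ‖z - w‖ ≤ h := by
  classical
  let cell : ℂ → ℤ × ℤ := fun z => (⌊2 * z.re / h⌋, ⌊2 * z.im / h⌋)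
  let T : Finset (ℤ × ℤ) :=
    Icc (-⌈2 * R / h⌉) ⌈2 * R / h⌉ ×ˢ Icc (-⌈2 * R / h⌉) ⌈2 * R / h⌉
  have hch : ∀ c : ℤ × ℤ, ∃ w : ℂ, (∃ z ∈ S, cell z = c) → w ∈ S ∧ cell w = c := by
    intro c
    by_cases hc : ∃ z ∈ S, cell z = c
    · obtain ⟨z, hz⟩ := hc
      exact ⟨z, fun _ => hz⟩
    · exact ⟨0, fun h => absurd h hc⟩
  choose f hf using hch
  refine ⟨(T.filter fun c => ∃ z ∈ S, cell z = c).image f, ?_, ?_, ?_⟩
  · intro z hz
    obtain ⟨c, hc, rfl⟩ := mem_image.1 hz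
    exact (hf c (mem_filter.1 hc).2).1
  · have h1 : ((T.filter fun c => ∃ z ∈ S, cell z = c).image f).card ≤ T.card :=
      card_image_le.trans (card_filter_le _ _)
    have h0 : 0 ≤ 2 * R / h := by positivity
    have h2 : 0 ≤ ⌈2 * R / h⌉ := Int.ceil_nonneg h0
    have h3 : ((Icc (-⌈2 * R / h⌉) ⌈2 * R / h⌉).card : ℝ) ≤ 4 * R / h + 3 := by
      have h4 := Int.card_Icc_of_le (-⌈2 * R / h⌉) ⌈2 * R / h⌉ (by omega)
      have h5 : ((Icc (-⌈2 * R / h⌉) ⌈2 * R / h⌉).card : ℝ) =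
          ((⌈2 * R / h⌉ + 1 - -⌈2 * R / h⌉ : ℤ) : ℝ) := by
        rw [← h4, Int.cast_natCast]
      have h6 := Int.ceil_lt_add_one (2 * R / h)
      have h7 : 4 * R / h = 2 * (2 * R / h) := by ring
      rw [h5, h7]; push_cast; linarith
    refine (Nat.cast_le.2 h1).trans ?_
    rw [card_product, Nat.cast_mul, sq]
    exact mul_le_mul h3 h3 (Nat.cast_nonneg _) (by positivity)
  · intro z hz
    have hc : ∃ z' ∈ S, cell z' = cell z := ⟨z, hz, rfl⟩
    refine ⟨f (cell z), mem_image_of_mem f (mem_filter.2 ⟨mem_product.2 ⟨?_, ?_⟩, hc⟩), ?_⟩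
    · exact prob_floor_mem hh ((Complex.abs_re_le_norm z).trans (hS z hz))
    · exact prob_floor_mem hh ((Complex.abs_im_le_norm z).trans (hS z hz))
    · have h1 := (hf _ hc).2
      have h2 := prob_floor_close hh (congrArg Prod.fst h1).symm
      have h3 := prob_floor_close hh (congrArg Prod.snd h1).symm
      refine (Complex.norm_le_abs_re_add_abs_im _).trans ?_
      rw [Complex.sub_re, Complex.sub_im]
      linarith

end Pool.Agent.OKM

end FileProb

section FileKraft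

/-!
Kraft inequality for revealing the rows of `I` one at a time (in decreasing order of `key`).
Hint for `kraft`: first prove, by induction on the finset `I` (remove the element of largest key,
`Finset.induction_on_max_value` or strong induction on the card), that for every `π₀`
`∑ π ∈ B.filter (agrees with π₀ on all stubs whose row is not in I), ∏ i ∈ I, 1/|O i π| ≤ 1`:
for `I = ∅` the filter has at most one element; for `I = insert i I'` with `key i` maximal,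
`O i π = O i π₀` on the filter, split the sum according to `tup π i ∈ O i π₀`, and in each
nonempty class pick a representative `π₁` and use the induction hypothesis for `I'`.
Then average over `π₀`: the number of `π₀` agreeing with a given `π` off the rows of `I` is exactly
`(|I| * r)!` (at least that many suffices: `π * σ` for `σ` a permutation of the stubs of the rows of
`I`, `Equiv.Perm.ofSubtype` / `extendDomain`), so
`(|I| r)! * ∑_B ∏ ≤ ∑_{π₀} 1 = (n r)!`.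
-/

open Finset

namespace Pool.Agent.OKM

variable {n r : ℕ}

theorem kraft_aux (key : Fin n → ℕ) (B : Finset (Cfg n r))
    (O : Fin n → Cfg n r → Finset (Fin r → St n r)) (I : Finset (Fin n)) :
    (∀ i ∈ I, ∀ π π' : Cfg n r,
      (∀ s : St n r, ¬ (s.1 ∈ I ∧ key s.1 ≤ key i) → π s = π' s) → O i π = O i π') →
    (∀ π ∈ B, ∀ i ∈ I, tup π i ∈ O i π) → ∀ π₀ : Cfg n r,
    ∑ π ∈ B.filter (fun π => ∀ s : St n r, s.1 ∉ I → π s = π₀ s),
      ∏ i ∈ I, (1 / ((O i π).card : ℝ)) ≤ 1 := by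
  induction I using Finset.induction_on_max_value key with
  | empty =>
    intro _ _ π₀
    have h1 : B.filter (fun π => ∀ s : St n r, s.1 ∉ (∅ : Finset (Fin n)) → π s = π₀ s) ⊆ {π₀} := by
      intro π hπ
      exact mem_singleton.mpr (Equiv.ext fun s => (mem_filter.mp hπ).2 s (notMem_empty _))
    simp only [prod_empty, sum_const, nsmul_eq_mul, mul_one]
    have h2 := card_le_card h1
    rw [card_singleton] at h2
    exact_mod_cast h2
  | insert a J ha hmax ih =>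
    intro hdet hmem π₀
    have ih' := ih (fun i hi π π' h => hdet i (mem_insert_of_mem hi) π π' fun s hs =>
      h s fun hs' => hs ⟨mem_insert_of_mem hs'.1, hs'.2⟩)
      (fun π hπ i hi => hmem π hπ i (mem_insert_of_mem hi))
    have hmF : ∀ π ∈ B.filter (fun π => ∀ s : St n r, s.1 ∉ insert a J → π s = π₀ s),
        π ∈ B ∧ ∀ s : St n r, s.1 ∉ insert a J → π s = π₀ s := fun π hπ => mem_filter.mp hπ
    generalize B.filter (fun π => ∀ s : St n r, s.1 ∉ insert a J → π s = π₀ s) = F at hmF ⊢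
    have hO : ∀ π ∈ F, O a π = O a π₀ := by
      intro π hπ
      refine hdet a (mem_insert_self a J) π π₀ fun s hs => (hmF π hπ).2 s fun hs' => ?_
      refine hs ⟨hs', ?_⟩
      rcases mem_insert.mp hs' with h | h
      · rw [h]
      · exact hmax _ h
    have hmaps : ∀ π ∈ F, tup π a ∈ O a π₀ := fun π hπ =>
      hO π hπ ▸ hmem π (hmF π hπ).1 a (mem_insert_self a J)
    rw [← sum_fiberwise_of_maps_to hmaps]
    have hfib : ∀ t ∈ O a π₀, ∑ π ∈ F.filter (fun π => tup π a = t),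
        ∏ i ∈ insert a J, (1 / ((O i π).card : ℝ)) ≤ 1 / ((O a π₀).card : ℝ) := by
      intro t _
      have e1 : ∑ π ∈ F.filter (fun π => tup π a = t), ∏ i ∈ insert a J, (1 / ((O i π).card : ℝ))
          = 1 / ((O a π₀).card : ℝ) *
            ∑ π ∈ F.filter (fun π => tup π a = t), ∏ i ∈ J, (1 / ((O i π).card : ℝ)) := by
        rw [mul_sum]
        refine sum_congr rfl fun π hπ => ?_
        rw [prod_insert ha, hO π (mem_filter.mp hπ).1]
      rw [e1]
      refine mul_le_of_le_one_right (one_div_nonneg.mpr (Nat.cast_nonneg _)) ?_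
      rcases (F.filter (fun π => tup π a = t)).eq_empty_or_nonempty with he | ⟨π₁, hπ₁⟩
      · rw [he, sum_empty]
        exact zero_le_one
      · refine le_trans (sum_le_sum_of_subset_of_nonneg ?_ fun _ _ _ =>
          prod_nonneg fun _ _ => one_div_nonneg.mpr (Nat.cast_nonneg _)) (ih' π₁)
        intro π hπ
        obtain ⟨h1, h2⟩ := mem_filter.mp hπ
        obtain ⟨h3, h4⟩ := mem_filter.mp hπ₁
        refine mem_filter.mpr ⟨(hmF π h1).1, fun s hs => ?_⟩
        by_cases hsa : s.1 = a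
        · have e2 : s = (a, s.2) := Prod.ext hsa rfl
          have e3 := congrFun (h2.trans h4.symm) s.2
          rw [e2]
          exact e3
        · have hs' : s.1 ∉ insert a J := fun h => (mem_insert.mp h).elim hsa hs
          rw [(hmF π h1).2 s hs', (hmF π₁ h3).2 s hs']
    refine (sum_le_card_nsmul _ _ _ hfib).trans ?_
    rw [nsmul_eq_mul, mul_one_div]
    exact div_self_le_one _

theorem kraft_card_rows (I : Finset (Fin n)) :
    (univ.filter fun s : St n r => s.1 ∈ I).card = I.card * r := by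
  have e : (univ.filter fun s : St n r => s.1 ∈ I) = I ×ˢ (univ : Finset (Fin r)) := by
    ext s
    simp
  rw [e, card_product, card_univ, Fintype.card_fin]

theorem kraft_count (I : Finset (Fin n)) (π : Cfg n r) :
    (I.card * r).factorial
      ≤ (univ.filter fun π₀ : Cfg n r => ∀ s : St n r, s.1 ∉ I → π s = π₀ s).card := by
  have h1 : Fintype.card (Equiv.Perm {s : St n r // s.1 ∈ I}) = (I.card * r).factorial := by
    rw [Fintype.card_perm, Fintype.card_subtype, kraft_card_rows]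
  rw [← h1, ← card_univ]
  refine card_le_card_of_injOn (fun σ => π * Equiv.Perm.ofSubtype σ) ?_ ?_
  · intro σ _
    refine mem_coe.mpr (mem_filter.mpr ⟨mem_univ _, fun s hs => ?_⟩)
    rw [Equiv.Perm.mul_apply, Equiv.Perm.ofSubtype_apply_of_not_mem σ hs]
  · intro σ _ σ' _ h
    exact Equiv.Perm.ofSubtype_injective (mul_left_cancel h)

theorem kraft (I : Finset (Fin n)) (key : Fin n → ℕ) (hkey : Set.InjOn key I)
    (B : Finset (Cfg n r)) (O : Fin n → Cfg n r → Finset (Fin r → St n r))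
    (hdet : ∀ i ∈ I, ∀ π π' : Cfg n r,
      (∀ s : St n r, ¬ (s.1 ∈ I ∧ key s.1 ≤ key i) → π s = π' s) → O i π = O i π')
    (hmem : ∀ π ∈ B, ∀ i ∈ I, tup π i ∈ O i π) :
    ∑ π ∈ B, ∏ i ∈ I, (1 / ((O i π).card : ℝ))
      ≤ ((n * r).factorial : ℝ) / ((I.card * r).factorial : ℝ) := by
  have _ := hkey
  have hpos : (0 : ℝ) < ((I.card * r).factorial : ℝ) := by exact_mod_cast Nat.factorial_pos _
  rw [le_div_iff₀ hpos]
  have h1 : ∑ π₀ : Cfg n r, ∑ π ∈ B.filter (fun π => ∀ s : St n r, s.1 ∉ I → π s = π₀ s),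
      ∏ i ∈ I, (1 / ((O i π).card : ℝ)) ≤ ((n * r).factorial : ℝ) := by
    refine (sum_le_card_nsmul _ _ _ fun π₀ _ => kraft_aux key B O I hdet hmem π₀).trans ?_
    rw [card_univ, card_cfg, nsmul_eq_mul, mul_one]
  refine le_trans ?_ h1
  simp only [sum_filter]
  rw [sum_comm, sum_mul]
  refine sum_le_sum fun π _ => ?_
  rw [← sum_filter, sum_const, nsmul_eq_mul, mul_comm]
  refine mul_le_mul_of_nonneg_right ?_
    (prod_nonneg fun _ _ => one_div_nonneg.mpr (Nat.cast_nonneg _))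
  exact_mod_cast kraft_count I π

theorem kraft_pr (I : Finset (Fin n)) (key : Fin n → ℕ) (hkey : Set.InjOn key I)
    (E : Cfg n r → Prop) (O : Fin n → Cfg n r → Finset (Fin r → St n r))
    (hdet : ∀ i ∈ I, ∀ π π' : Cfg n r,
      (∀ s : St n r, ¬ (s.1 ∈ I ∧ key s.1 ≤ key i) → π s = π' s) → O i π = O i π')
    (hmem : ∀ π, E π → ∀ i ∈ I, tup π i ∈ O i π) {Λ : ℝ} (hΛ0 : 0 ≤ Λ)
    (hΛ : ∀ π, E π → ∏ i ∈ I, ((O i π).card : ℝ) ≤ Λ) :
    pr E ≤ Λ / ((I.card * r).factorial : ℝ) := by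
  classical
  have hk := kraft I key hkey (univ.filter E) O hdet fun π hπ => hmem π (mem_filter.mp hπ).2
  have hN : (0 : ℝ) < ((n * r).factorial : ℝ) := by exact_mod_cast Nat.factorial_pos _
  have h1 : (cnt E : ℝ) ≤ Λ * ∑ π ∈ univ.filter E, ∏ i ∈ I, (1 / ((O i π).card : ℝ)) := by
    have e : (cnt E : ℝ) = ∑ _π ∈ univ.filter E, (1 : ℝ) := by
      rw [sum_const, nsmul_eq_mul, mul_one]
      unfold cnt
      congr
    rw [e, mul_sum]
    refine sum_le_sum fun π hπ => ?_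
    have hE := (mem_filter.mp hπ).2
    have hp : (0 : ℝ) < ∏ i ∈ I, ((O i π).card : ℝ) :=
      prod_pos fun i hi => by exact_mod_cast card_pos.mpr ⟨_, hmem π hE i hi⟩
    rw [prod_div_distrib, prod_const_one, mul_one_div, le_div_iff₀ hp, one_mul]
    exact hΛ π hE
  unfold pr
  rw [div_le_iff₀ hN]
  refine h1.trans ((mul_le_mul_of_nonneg_left hk hΛ0).trans (le_of_eq ?_))
  ring

/-- the set of in-stubs matched to the rows of `I` is determined by the other rows -/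
theorem owner_det (I : Finset (Fin n)) {π π' : Cfg n r}
    (h : ∀ s : St n r, s.1 ∉ I → π s = π' s) (t : St n r) :
    (π⁻¹ t).1 ∈ I ↔ (π'⁻¹ t).1 ∈ I := by
  have key : ∀ {ρ ρ' : Cfg n r}, (∀ s : St n r, s.1 ∉ I → ρ s = ρ' s) →
      (ρ'⁻¹ t).1 ∈ I → (ρ⁻¹ t).1 ∈ I := by
    intro ρ ρ' hρ ht
    by_contra hn
    have e : ρ' (ρ⁻¹ t) = t := by rw [← hρ _ hn]; simp
    have e' : ρ'⁻¹ t = ρ⁻¹ t := by rw [Equiv.Perm.inv_eq_iff_eq]; exact e.symm
    exact hn (e' ▸ ht)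
  exact ⟨key fun s hs => (h s hs).symm, key h⟩

theorem card_pool (I : Finset (Fin n)) (π : Cfg n r) :
    (univ.filter fun t : St n r => (π⁻¹ t).1 ∈ I).card = I.card * r := by
  rw [← kraft_card_rows I]
  refine card_bijective (fun t => π⁻¹ t) (π⁻¹).bijective fun t => ?_
  simp only [mem_filter, mem_univ, true_and]

end Pool.Agent.OKM

end FileKraft
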